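import Mathlib
import Pool.Agent.K6.H82.QS.Nec

/-!
# Necessary conditions for a factorization of a `(P, ω)`-partition generating function

Let `P` be a finite poset with `n` elements, `ω` an arbitrary labelling, and let `e` be the number of
the linear extensions of `P`. If `Γ(P, ω) = f g` with two quasisymmetric functions `f`, `g` which are not
constant, then `f` and `g` are homogeneous of degrees `i` and `n - i` for some `0 < i < n`, the binomial
coefficient `binom(n, i)` divides `e`, and the sum of `ζ^(∑ φ)` over the `(P, ω)`-partitions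
`φ : P → {0, …, n - 1}` vanishes for every primitive `n`-th root of unity `ζ`. Hence `Γ(P, ω)` is
irreducible for every labelling if no `binom(n, i)`, `0 < i < n`, divides `e`; for instance if `n` is a
power of a prime number which does not divide `e`.
-/

set_option autoImplicit false

namespace Pool.Agent.Results.MP_5bc52d_co.Factorizations

/-- `Q` is the ring of the quasisymmetric functions over `ℚ` in the variables `x_0, x_1, …`: the power
series of bounded degree whose coefficients do not change when the variables are renumbered by a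
strictly increasing map. -/
def IsQSym (Q : Subring (MvPowerSeries ℕ ℚ)) : Prop :=
  ∀ F : MvPowerSeries ℕ ℚ, F ∈ Q ↔
    ((∃ N : ℕ, ∀ m : ℕ →₀ ℕ, N < m.sum (fun _ e => e) → F m = 0) ∧
      ∀ m : ℕ →₀ ℕ, ∀ g : ℕ → ℕ, StrictMono g → F (Finsupp.mapDomain g m) = F m)

/-- Homogeneous of degree `i`. -/
def Homogeneous (i : ℕ) (F : MvPowerSeries ℕ ℚ) : Prop :=
  ∀ m : ℕ →₀ ℕ, F m ≠ 0 → m.sum (fun _ e => e) = i

section
variable {P : Type} [PartialOrder P]

/-- The `(P, ω)`-partitions: `f a ≤ f b` for `a < b`, and `f a < f b` if moreover `ω b < ω a`. -/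
def IsPartition (ω : P → ℕ) (f : P → ℕ) : Prop :=
  ∀ a b : P, a < b → f a ≤ f b ∧ (ω b < ω a → f a < f b)

/-- The generating function `Γ(P, ω) = ∑_f ∏_p x_(f p)`: the coefficient of the monomial `x^m` is the
number of the `(P, ω)`-partitions `f` with `∏_p x_(f p) = x^m`. -/
noncomputable def Gamma [Fintype P] (ω : P → ℕ) : MvPowerSeries ℕ ℚ :=
  fun m : ℕ →₀ ℕ =>
    ((Nat.card {f : P → ℕ // IsPartition ω f ∧ ∑ p : P, Finsupp.single (f p) 1 = m} : ℕ) : ℚ)

open Classical in
/-- The sum of `ζ^(∑ φ)` over the `(P, ω)`-partitions `φ` with values in `{0, …, n - 1}`, `n = |P|`. -/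
noncomputable def cyclicSum [Fintype P] (ω : P → ℕ) (ζ : ℂ) : ℂ :=
  ∑ φ : P → Fin (Fintype.card P),
    if IsPartition ω (fun p => (φ p : ℕ)) then ζ ^ (∑ p, (φ p : ℕ)) else 0

end

/-- The number of the linear extensions of `P`. -/
noncomputable def linearExtensions (P : Type) [Fintype P] [PartialOrder P] : ℕ :=
  Nat.card {e : P ≃ Fin (Fintype.card P) // ∀ a b : P, a < b → e a < e b}

/-- **Theorem.** Let `Q` be the ring of the quasisymmetric functions, `P` a finite poset with `n`
elements and `ω` a labelling. (1) If `Γ(P, ω) = f g` with nonunits `f`, `g` of `Q`, then there is `i` with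
`0 < i < n` such that `f` is homogeneous of degree `i`, `g` is homogeneous of degree `n - i`, `binom(n, i)`
divides the number `e` of the linear extensions of `P`, and the cyclic sum vanishes for all primitive
`n`-th roots of unity. (2) If `P` is not empty and no `binom(n, i)`, `0 < i < n`, divides `e`, then
`Γ(P, ω)` is irreducible. (3) This is the case if `n` is a power of a prime number `p` which does not
divide `e`. -/
theorem result (Q : Subring (MvPowerSeries ℕ ℚ)) (hQ : IsQSym Q) (P : Type) [Fintype P]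
    [PartialOrder P] (ω : P → ℕ) :
    (∀ f g : Q, ((f * g : Q) : MvPowerSeries ℕ ℚ) = Gamma ω → ¬ IsUnit f → ¬ IsUnit g →
      ∃ i, 0 < i ∧ i < Fintype.card P ∧ Homogeneous i (f : MvPowerSeries ℕ ℚ) ∧
        Homogeneous (Fintype.card P - i) (g : MvPowerSeries ℕ ℚ) ∧
        (Fintype.card P).choose i ∣ linearExtensions P ∧
        ∀ ζ : ℂ, IsPrimitiveRoot ζ (Fintype.card P) → cyclicSum ω ζ = 0) ∧
    (Nonempty P → (∀ i, 0 < i → i < Fintype.card P →
        ¬ (Fintype.card P).choose i ∣ linearExtensions P) →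
      ∀ G : Q, (G : MvPowerSeries ℕ ℚ) = Gamma ω → Irreducible G) ∧
    (∀ p k : ℕ, p.Prime → Fintype.card P = p ^ k → ¬ p ∣ linearExtensions P →
      ∀ G : Q, (G : MvPowerSeries ℕ ℚ) = Gamma ω → Irreducible G) := by
  have h1 : ∀ f g : Q, ((f * g : Q) : MvPowerSeries ℕ ℚ) = Gamma ω → ¬ IsUnit f → ¬ IsUnit g →
      ∃ i, 0 < i ∧ i < Fintype.card P ∧ Homogeneous i (f : MvPowerSeries ℕ ℚ) ∧
        Homogeneous (Fintype.card P - i) (g : MvPowerSeries ℕ ℚ) ∧
        (Fintype.card P).choose i ∣ linearExtensions P ∧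
        ∀ ζ : ℂ, IsPrimitiveRoot ζ (Fintype.card P) → cyclicSum ω ζ = 0 := by
    intro f g h hf hg
    obtain ⟨i, h2, h3, h4, h5, h6, h7⟩ := Pool.Agent.K6.H82.QS.necessary hQ ω f g h hf hg
    refine ⟨i, h2, h3, h4, h5, h6, fun ζ hζ => ?_⟩
    have h8 := h7 ζ hζ
    rw [Pool.Agent.K6.H82.QS.ev_Gam] at h8
    exact h8
  have h2 : Nonempty P → (∀ i, 0 < i → i < Fintype.card P →
        ¬ (Fintype.card P).choose i ∣ linearExtensions P) →
      ∀ G : Q, (G : MvPowerSeries ℕ ℚ) = Gamma ω → Irreducible G := by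
    intro hP hno G hG
    constructor
    · intro hu
      obtain ⟨H, hH⟩ := hu.exists_right_inv
      have h1 := congrArg (fun x : Q => (x : MvPowerSeries ℕ ℚ) 0) hH
      have h2 : ((G * H : Q) : MvPowerSeries ℕ ℚ) 0 =
          (G : MvPowerSeries ℕ ℚ) 0 * (H : MvPowerSeries ℕ ℚ) 0 := by
        show ((G : MvPowerSeries ℕ ℚ) * (H : MvPowerSeries ℕ ℚ)) 0 = _
        rw [Pool.Agent.K6.H82.QS.mul_apply]
        simp
      have h3 : ((1 : Q) : MvPowerSeries ℕ ℚ) 0 = 1 := by
        show MvPowerSeries.coeff 0 (1 : MvPowerSeries ℕ ℚ) = 1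
        simp
      simp only [h2, h3] at h1
      have h4 : (G : MvPowerSeries ℕ ℚ) 0 ≠ 0 :=
        left_ne_zero_of_mul (by rw [h1]; exact one_ne_zero)
      rw [hG] at h4
      have h5 := Pool.Agent.K6.H82.QS.hom_Gam ω 0 h4
      rw [Pool.Agent.K6.H82.QS.dg_zero] at h5
      have h6 : 0 < Fintype.card P := Fintype.card_pos
      omega
    · intro f g hfg
      by_contra hcon
      rw [not_or] at hcon
      obtain ⟨i, h3, h4, _, _, h5, _⟩ := h1 f g (by rw [← hfg]; exact hG) hcon.1 hcon.2
      exact hno i h3 h4 h5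
  refine ⟨h1, h2, fun p k hp hk hpe => ?_⟩
  have hP : Nonempty P := by
    rw [← Fintype.card_pos_iff, hk]
    exact pow_pos hp.pos k
  refine h2 hP (fun i hi0 hi hdvd => hpe ?_)
  rw [hk] at hi hdvd
  exact (hp.dvd_choose_pow hi0.ne' hi.ne).trans hdvd

end Pool.Agent.Results.MP_5bc52d_co.Factorizations
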