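import Mathlib
import Pool.Agent.K6.H82.QS.Ring

/-!
# Irreducibility of the `(P, ω)`-partition generating functions of all tree posets

If the Hasse diagram of the finite poset `P` is a tree, then `Γ(P, ω)` is irreducible in the ring of
the quasisymmetric functions for every labelling `ω`, whatever the mixture of weak and strict
relations.

Method: let `n = |P|` and let `ζ` be a primitive `n`-th root of unity. Every quasisymmetric function
which is homogeneous of degree `k`, `0 < k < n`, vanishes at `(1, ζ, …, ζ^(n-1), 0, 0, …)`; hence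
`Γ(P, ω)` is irreducible as soon as it does not vanish there, that is as soon as the sum of
`ζ^(φ_1 + … + φ_n)` over the `(P, ω)`-partitions `φ` with values in `{0, …, n - 1}` is not `0`. For a
tree poset this sum is computed by removing leaves.
-/

set_option autoImplicit false

namespace Pool.Agent.Results.MP_5bc52d_co.TreePosets

/-- `Q` is the ring of the quasisymmetric functions over `ℚ` in the variables `x_0, x_1, …`: the power
series of bounded degree whose coefficients do not change when the variables are renumbered by a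
strictly increasing map. -/
def IsQSym (Q : Subring (MvPowerSeries ℕ ℚ)) : Prop :=
  ∀ F : MvPowerSeries ℕ ℚ, F ∈ Q ↔
    ((∃ N : ℕ, ∀ m : ℕ →₀ ℕ, N < m.sum (fun _ e => e) → F m = 0) ∧
      ∀ m : ℕ →₀ ℕ, ∀ g : ℕ → ℕ, StrictMono g → F (Finsupp.mapDomain g m) = F m)

/-- The `(P, ω)`-partitions: `f a ≤ f b` for `a < b`, and `f a < f b` if moreover `ω b < ω a`. -/
def IsPartition {P : Type} [PartialOrder P] (ω : P → ℕ) (f : P → ℕ) : Prop :=
  ∀ a b : P, a < b → f a ≤ f b ∧ (ω b < ω a → f a < f b)

/-- The generating function `Γ(P, ω) = ∑_f ∏_p x_(f p)`: the coefficient of the monomial `x^m` is the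
number of the `(P, ω)`-partitions `f` with `∏_p x_(f p) = x^m`. -/
noncomputable def Gamma {P : Type} [Fintype P] [PartialOrder P] (ω : P → ℕ) : MvPowerSeries ℕ ℚ :=
  fun m : ℕ →₀ ℕ =>
    ((Nat.card {f : P → ℕ // IsPartition ω f ∧ ∑ p : P, Finsupp.single (f p) 1 = m} : ℕ) : ℚ)

lemma Gamma_eq {P : Type} [Fintype P] [PartialOrder P] (ω : P → ℕ) :
    Gamma ω = Pool.Agent.K6.H82.QS.Gam ω := rfl

/-- **Theorem.** There is a ring `Q` of the quasisymmetric functions, and it contains all the
generating functions `Γ(P, ω)`. If the Hasse diagram of the finite poset `P` is a tree, then `Γ(P, ω)` is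
irreducible in `Q`, for every labelling `ω`. -/
theorem result :
    (∃ Q : Subring (MvPowerSeries ℕ ℚ), IsQSym Q) ∧
    ∀ Q : Subring (MvPowerSeries ℕ ℚ), IsQSym Q →
      ∀ (P : Type) [Fintype P] [PartialOrder P] (ω : P → ℕ), Gamma ω ∈ Q ∧
        ((SimpleGraph.hasse P).IsTree →
          ∀ G : Q, (G : MvPowerSeries ℕ ℚ) = Gamma ω → Irreducible G) := by
  refine ⟨⟨Pool.Agent.K6.H82.QS.QSym, Pool.Agent.K6.H82.QS.isQSym_QSym⟩, ?_⟩
  intro Q hQ P _ _ ω
  refine ⟨?_, fun hT G hG => ?_⟩
  · exact (hQ _).2 (Pool.Agent.K6.H82.QS.Gam_mem ω)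
  · exact Pool.Agent.K6.H82.QS.tree_irr hQ ω hT G hG

end Pool.Agent.Results.MP_5bc52d_co.TreePosets
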